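import Pool.Agent.N207.AX.Stm2
import Pool.Agent.Y124.Indep

/-!
# The Ax-Schanuel theorem for the modular function in several variables, from general lines

Part MOD of project AX (helper207). By helper667.  The conditions on the line: the derivatives of the `τ i` and of the
integral combinations of the `w k` in the direction of the line are not zero, and for every finite set of monomials some
minor of the matrix of the derivatives of the monomials in `j(τ_i)`, `j(τ_k)` along the line is not zero.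
-/

set_option autoImplicit false

namespace Pool.Agent.N667.AX

open Pool.Agent.N207.AX Pool.Agent Filter Topology

section dir

variable {E : Type} [NormedAddCommGroup E] [NormedSpace ℂ E] {U : Set E}

/-- iterated directional derivatives, as functions of the point and the direction -/
noncomputable def GD (g : E → ℂ) : ℕ → E × E → ℂ
  | 0 => fun q => g q.1
  | n + 1 => fun q => fderiv ℂ (GD g n) q (q.2, 0)

theorem GD_an {g : E → ℂ} (hg : AnalyticOnNhd ℂ g U) (n : ℕ) :
    AnalyticOnNhd ℂ (GD g n) (U ×ˢ Set.univ) := by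
  induction n with
  | zero =>
    intro q hq
    exact (hg q.1 hq.1).comp (analyticAt_fst)
  | succ n ih =>
    intro q hq
    have h1 : AnalyticAt ℂ (fderiv ℂ (GD g n)) q := (ih q hq).fderiv
    have h2 : AnalyticAt ℂ (fun q : E × E => ((q.2, 0) : E × E)) q :=
      analyticAt_snd.prod analyticAt_const
    have h3 : AnalyticAt ℂ (fun r : ((E × E) →L[ℂ] ℂ) × (E × E) => r.1 r.2)
        (fderiv ℂ (GD g n) q, (q.2, 0)) :=
      (ContinuousLinearMap.id ℂ ((E × E) →L[ℂ] ℂ)).analyticAt_bilinear _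
    exact AnalyticAt.comp (f := fun q : E × E => (fderiv ℂ (GD g n) q, ((q.2, 0) : E × E))) h3
      (h1.prod h2)

theorem GD_deriv {g : E → ℂ} (hg : AnalyticOnNhd ℂ g U) (x v : E) (n : ℕ) {t : ℂ}
    (ht : x + t • v ∈ U) : HasDerivAt (fun t : ℂ => GD g n (x + t • v, v)) (GD g (n + 1) (x + t • v, v)) t := by
  have h1 : HasFDerivAt (GD g n) (fderiv ℂ (GD g n) (x + t • v, v)) (x + t • v, v) :=
    (GD_an hg n (x + t • v, v) ⟨ht, trivial⟩).differentiableAt.hasFDerivAt
  have h2 : HasDerivAt (fun t : ℂ => ((x + t • v, v) : E × E)) (v, 0) t := by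
    have h5 := ((hasDerivAt_id t).smul_const v).const_add x
    rw [one_smul] at h5
    exact h5.prodMk (hasDerivAt_const t v)
  exact h1.comp_hasDerivAt t h2

theorem iter_eq {g : E → ℂ} (hU : IsOpen U) (hg : AnalyticOnNhd ℂ g U) (x v : E) (n : ℕ) :
    ∀ t : ℂ, x + t • v ∈ U → iteratedDeriv n (fun t : ℂ => g (x + t • v)) t = GD g n (x + t • v, v) := by
  induction n with
  | zero =>
    intro t ht
    rw [iteratedDeriv_zero]
    rfl
  | succ n ih =>
    intro t ht
    rw [iteratedDeriv_succ]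
    have hcont : Continuous fun t : ℂ => x + t • v := by fun_prop
    have h1 : iteratedDeriv n (fun t : ℂ => g (x + t • v)) =ᶠ[𝓝 t] fun t => GD g n (x + t • v, v) := by
      filter_upwards [hcont.continuousAt.preimage_mem_nhds (hU.mem_nhds ht)] with u hu
      exact ih u hu
    rw [h1.deriv_eq]
    exact (GD_deriv hg x v n ht).deriv

end dir

/-- a nonzero minor -/
theorem exists_minor {M : Type} [Fintype M] [DecidableEq M] (A : M → ℕ → ℂ)
    (h : ∀ c : M → ℂ, (∀ n, ∑ a, c a * A a n = 0) → c = 0) :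
    ∃ ρ : M → ℕ, (Matrix.of fun a b => A a (ρ b)).det ≠ 0 := by
  classical
  let col : ℕ → (M → ℂ) := fun n a => A a n
  have hspan : Submodule.span ℂ (Set.range col) = ⊤ := by
    by_contra hne
    obtain ⟨f, hf0, hf⟩ := Submodule.exists_le_ker_of_lt_top _ (lt_top_iff_ne_top.2 hne)
    apply hf0
    have h1 : (fun a => f (Pi.single a 1)) = 0 := by
      apply h
      intro n
      have h2 : f (col n) = 0 := hf (Submodule.subset_span ⟨n, rfl⟩)
      rw [← h2]
      conv_rhs => rw [← Finset.univ_sum_single (col n)]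
      rw [map_sum]
      refine Finset.sum_congr rfl fun a _ => ?_
      have : (Pi.single a (col n a) : M → ℂ) = (col n a) • (Pi.single a 1 : M → ℂ) := by
        rw [← Pi.single_smul, smul_eq_mul, mul_one]
      rw [this, map_smul, smul_eq_mul, mul_comm]
    apply LinearMap.ext
    intro y
    rw [← Finset.univ_sum_single y, map_sum, LinearMap.zero_apply]
    refine Finset.sum_eq_zero fun a _ => ?_
    have : (Pi.single a (y a) : M → ℂ) = (y a) • (Pi.single a 1 : M → ℂ) := by
      rw [← Pi.single_smul, smul_eq_mul, mul_one]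
    rw [this, map_smul, congrFun h1 a, Pi.zero_apply, smul_zero]
  obtain ⟨b, hb, hbs, hbi⟩ := exists_linearIndependent ℂ (Set.range col)
  rw [hspan] at hbs
  let B : Module.Basis b ℂ (M → ℂ) := Module.Basis.mk hbi (by rw [Subtype.range_coe, hbs])
  let e : M ≃ b := (Pi.basisFun ℂ M).indexEquiv B
  have h3 : ∀ a : M, ∃ n, col n = (e a : M → ℂ) := fun a => hb (e a).2
  choose ρ hρ using h3
  refine ⟨ρ, ?_⟩
  have h4 : LinearIndependent ℂ (fun a : M => (e a : M → ℂ)) := hbi.comp e e.injective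
  have h5 : LinearIndependent ℂ (Matrix.of fun a b => A a (ρ b)).col := by
    have : (Matrix.of fun a b => A a (ρ b)).col = fun a : M => (e a : M → ℂ) := by
      funext a
      rw [← hρ a]
      rfl
    rw [this]
    exact h4
  have h6 := Matrix.linearIndependent_cols_iff_isUnit.1 h5
  exact ((Matrix.isUnit_iff_isUnit_det _).1 h6).ne_zero

/-- a family without linear relations near `0` has a nonzero minor of derivatives at `0` -/
theorem exists_minor_deriv {M : Type} [Fintype M] [DecidableEq M] (g : M → ℂ → ℂ)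
    (hg : ∀ a, AnalyticAt ℂ (g a) 0)
    (h : ∀ c : M → ℂ, (∀ᶠ t in 𝓝 (0 : ℂ), ∑ a, c a * g a t = 0) → c = 0) :
    ∃ ρ : M → ℕ, (Matrix.of fun a b => iteratedDeriv (ρ b) (g a) 0).det ≠ 0 := by
  apply exists_minor (fun a n => iteratedDeriv n (g a) 0)
  intro c hc
  have h1 : LinearIndependent ℂ (fun a η => Y124.tc (g a) 0 η) := by
    apply Y124.tc_indep g 0 hg
    intro S c hS
    have h2 := h (fun a => if a ∈ S then c a else 0) (by
      filter_upwards [hS] with t ht
      refine Eq.trans ?_ ht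
      simp only [ite_mul, zero_mul]
      rw [Finset.sum_ite_mem, Finset.univ_inter])
    intro a ha
    have h3 := congrFun h2 a
    simpa [ha] using h3
  rw [Fintype.linearIndependent_iff] at h1
  funext a
  apply h1 c
  funext η
  simp only [Finset.sum_apply, Pi.smul_apply, smul_eq_mul, Pi.zero_apply, Y124.tc]
  have h2 := hc η
  calc ∑ a, c a * (iteratedDeriv η (g a) 0 / (η.factorial : ℂ))
      = (∑ a, c a * iteratedDeriv η (g a) 0) / (η.factorial : ℂ) := by
        rw [Finset.sum_div]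
        exact Finset.sum_congr rfl fun a _ => by ring
    _ = 0 := by rw [h2, zero_div]

/-- a nonzero minor of derivatives excludes linear relations -/
theorem eq_zero_of_minor {M : Type} [Fintype M] [DecidableEq M] (g : M → ℂ → ℂ)
    (hg : ∀ a, AnalyticAt ℂ (g a) 0) (ρ : M → ℕ)
    (hdet : (Matrix.of fun a b => iteratedDeriv (ρ b) (g a) 0).det ≠ 0)
    (c : M → ℂ) (hc : ∀ᶠ t in 𝓝 (0 : ℂ), ∑ a, c a * g a t = 0) : c = 0 := by
  apply Matrix.eq_zero_of_vecMul_eq_zero hdet
  funext b
  have h1 := Y124.tc_sum Finset.univ c g 0 hg (ρ b)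
  have h2 : Y124.tc (fun t => ∑ a, c a * g a t) 0 (ρ b) = 0 := by
    have h3 : (fun t => ∑ a, c a * g a t) =ᶠ[𝓝 0] fun _ => (0 : ℂ) := hc
    rw [Y124.tc, h3.iteratedDeriv_eq, iteratedDeriv_fun_const_zero, zero_div]
  rw [h2] at h1
  have hf : ((ρ b).factorial : ℂ) ≠ 0 := by exact_mod_cast (ρ b).factorial_ne_zero
  have h4 : (∑ a, c a * iteratedDeriv (ρ b) (g a) 0) / ((ρ b).factorial : ℂ) = 0 := by
    rw [Finset.sum_div]
    refine Eq.trans ?_ h1.symm
    exact Finset.sum_congr rfl fun a _ => by rw [Y124.tc]; ring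
  rw [div_eq_zero_iff] at h4
  exact h4.resolve_right hf

section main

variable {X : Type} [Fintype X] {p s : ℕ} {U : Set (X → ℂ)} {τ : Fin p → (X → ℂ) → ℂ}
  {w : Fin s → (X → ℂ) → ℂ}

theorem ym_an (ta : ∀ i, AnalyticOnNhd ℂ (τ i) U) (im : ∀ i, ∀ z ∈ U, 0 < (τ i z).im)
    (wa : ∀ k, AnalyticOnNhd ℂ (w k) U) (i : Y776.AxJ.Nj p s) : AnalyticOnNhd ℂ (ym τ w i) U := by
  intro z hz
  rcases i with ⟨i, m⟩ | k | k
  · exact AnalyticAt.comp (g := Y776.AxJ.b4 m) (f := τ i) (Y776.AxJ.b4_an m _ (im i z hz)) (ta i z hz)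
  · exact wa k z hz
  · exact (wa k z hz).cexp

/-- a line in the domain -/
theorem line_an {g : (X → ℂ) → ℂ} (hg : AnalyticOnNhd ℂ g U) (x v : X → ℂ) {t : ℂ}
    (ht : x + t • v ∈ U) : AnalyticAt ℂ (fun t : ℂ => g (x + t • v)) t := by
  have h1 : AnalyticAt ℂ (fun t : ℂ => x + t • v) t :=
    analyticAt_const.add (analyticAt_id.smul analyticAt_const)
  exact AnalyticAt.comp (g := g) (f := fun t : ℂ => x + t • v) (hg _ ht) h1

/-- a monomial in the two functions `j(τ_i)`, `j(τ_k)` -/
noncomputable def gm (τ : Fin p → (X → ℂ) → ℂ) (i k : Fin p) (m : Fin 2 →₀ ℕ) (z : X → ℂ) : ℂ :=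
  Y776.jf (τ i z) ^ m 0 * Y776.jf (τ k z) ^ m 1

theorem gm_an (ta : ∀ i, AnalyticOnNhd ℂ (τ i) U) (im : ∀ i, ∀ z ∈ U, 0 < (τ i z).im) (i k : Fin p)
    (m : Fin 2 →₀ ℕ) : AnalyticOnNhd ℂ (gm τ i k m) U := by
  intro z hz
  have h : ∀ i : Fin p, AnalyticAt ℂ (fun z => Y776.jf (τ i z)) z := fun i =>
    AnalyticAt.comp (g := Y776.jf) (f := τ i) (Y776.AxJ.an_j _ (im i z hz)) (ta i z hz)
  exact ((h i).pow _).mul ((h k).pow _)

theorem eval_gm (i k : Fin p) (P : MvPolynomial (Fin 2) ℂ) (z : X → ℂ) :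
    MvPolynomial.eval ![Y776.jf (τ i z), Y776.jf (τ k z)] P = ∑ m ∈ P.support, P.coeff m * gm τ i k m z := by
  rw [MvPolynomial.eval_eq']
  refine Finset.sum_congr rfl fun m _ => ?_
  rw [Fin.prod_univ_two]
  rfl

theorem minor_eq {M : Type} [Fintype M] [DecidableEq M] (hU : IsOpen U) (g : M → (X → ℂ) → ℂ)
    (hg : ∀ a, AnalyticOnNhd ℂ (g a) U) (ρ : M → ℕ) (x v : X → ℂ) (hx : x ∈ U) :
    (Matrix.of fun a b => iteratedDeriv (ρ b) (fun t : ℂ => g a (x + t • v)) 0).det =
      (Matrix.of fun a b => GD (g a) (ρ b) (x, v)).det := by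
  have e : (fun a b => iteratedDeriv (ρ b) (fun t : ℂ => g a (x + t • v)) 0) =
      fun a b => GD (g a) (ρ b) (x, v) := by
    funext a b
    rw [iter_eq hU (hg a) x v _ 0 (by rwa [zero_smul, add_zero]), zero_smul, add_zero]
  rw [e]

end main

/-- **MOD.** -/
theorem modl (hI : StmIndV) : StmMod := by
  classical
  intro X _ p s U τ w hp hU hc hne ta im nc ji wa wi
  -- the determinants
  have key : ∀ (q : {q : Fin p × Fin p // q.1 ≠ q.2}) (S : Finset (Fin 2 →₀ ℕ)),
      ∃ ρ : S → ℕ, ∃ z ∈ U, ∃ v : X → ℂ,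
        (Matrix.of fun a b : S => GD (gm τ q.1.1 q.1.2 a.1) (ρ b) (z, v)).det ≠ 0 := by
    intro q S
    obtain ⟨x, hx, v, hP⟩ := ji q.1.1 q.1.2 q.2
    have hx0 : x + (0 : ℂ) • v ∈ U := by rwa [zero_smul, add_zero]
    obtain ⟨ρ, hρ⟩ := exists_minor_deriv (M := S) (fun a t => gm τ q.1.1 q.1.2 a.1 (x + t • v))
      (fun a => line_an (gm_an ta im _ _ _) x v hx0) (by
        intro c hc
        have h1 := hP (∑ a : S, MvPolynomial.monomial a.1 (c a)) (by
          filter_upwards [hc] with t ht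
          rw [map_sum]
          refine Eq.trans (Finset.sum_congr rfl fun a _ => ?_) ht
          rw [MvPolynomial.eval_monomial, Finsupp.prod_fintype _ _ (fun _ => pow_zero _),
            Fin.prod_univ_two]
          rfl)
        funext a
        have h2 := congrArg (MvPolynomial.coeff a.1) h1
        rw [MvPolynomial.coeff_sum, MvPolynomial.coeff_zero, Finset.sum_eq_single a] at h2
        · simpa [MvPolynomial.coeff_monomial] using h2
        · intro b _ hb
          rw [MvPolynomial.coeff_monomial, if_neg (fun h => hb (Subtype.ext h))]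
        · intro h
          exact absurd (Finset.mem_univ a) h)
    refine ⟨ρ, x, hx, v, ?_⟩
    rwa [minor_eq hU (fun a : S => gm τ q.1.1 q.1.2 a.1) (fun a => gm_an ta im _ _ _) ρ x v hx] at hρ
  choose ρ hρ using key
  let ι : Type := Fin p ⊕ ({m : Fin s → ℤ // m ≠ 0} ⊕
    ({q : Fin p × Fin p // q.1 ≠ q.2} × Finset (Fin 2 →₀ ℕ)))
  have wS : ∀ m : Fin s → ℤ, AnalyticOnNhd ℂ (fun z => ∑ k, (m k : ℂ) * w k z) U := fun m z hz =>
    Finset.analyticAt_fun_sum _ fun k _ => analyticAt_const.mul (wa k z hz)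
  let h : ι → (X → ℂ) × (X → ℂ) → ℂ := Sum.elim (fun i => GD (τ i) 1)
    (Sum.elim (fun m => GD (fun z => ∑ k, (m.1 k : ℂ) * w k z) 1)
      fun y r => (Matrix.of fun a b : y.2 => GD (gm τ y.1.1.1 y.1.1.2 a.1) (ρ y.1 y.2 b) r).det)
  have hh : ∀ i, AnalyticOnNhd ℂ (h i) (U ×ˢ Set.univ) := by
    rintro (i | m | y)
    · exact GD_an (ta i) 1
    · exact GD_an (wS m.1) 1
    · intro r hr
      have h1 : h (Sum.inr (Sum.inr y)) = fun r => ∑ σ : Equiv.Perm y.2, ((Equiv.Perm.sign σ : ℤ) : ℂ) *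
          ∏ b, GD (gm τ y.1.1.1 y.1.1.2 (σ b).1) (ρ y.1 y.2 b) r := by
        funext r
        exact Matrix.det_apply' _
      rw [h1]
      exact Finset.analyticAt_fun_sum _ fun σ _ => analyticAt_const.mul
        (Finset.analyticAt_fun_prod _ fun b _ => GD_an (gm_an ta im _ _ _) _ r hr)
  -- nonconstant functions
  have hncst : ∀ f : (X → ℂ) → ℂ, AnalyticOnNhd ℂ f U → (∀ c, ∃ z ∈ U, f z ≠ c) →
      ∃ z ∈ U, ∃ v : X → ℂ, GD f 1 (z, v) ≠ 0 := by
    intro f hf hfc
    by_contra hcon
    push Not at hcon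
    obtain ⟨z0, hz0⟩ := hne
    obtain ⟨z, hz, hzk⟩ := hfc (f z0)
    apply hzk
    refine hU.is_const_of_fderiv_eq_zero hc hf.differentiableOn (fun y hy => ?_) hz hz0
    rw [Pi.zero_apply]
    apply ContinuousLinearMap.ext
    intro v
    have h1 := GD_deriv hf y v 0 (t := 0) (by rwa [zero_smul, add_zero])
    rw [zero_smul, add_zero, hcon y hy v] at h1
    have h2 : HasDerivAt (fun t : ℂ => f (y + t • v)) (fderiv ℂ f y v) 0 := by
      have h3 : HasFDerivAt f (fderiv ℂ f y) (y + (0 : ℂ) • v) := by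
        rw [zero_smul, add_zero]
        exact (hf y hy).differentiableAt.hasFDerivAt
      have h4 : HasDerivAt (fun τ : ℂ => y + τ • v) v 0 := by
        have h5 := ((hasDerivAt_id (0 : ℂ)).smul_const v).const_add y
        rw [one_smul] at h5
        exact h5
      exact h3.comp_hasDerivAt (0 : ℂ) h4
    rw [h2.unique h1]
    rfl
  have hnz : ∀ i, ∃ z ∈ U, ∃ v : X → ℂ, h i (z, v) ≠ 0 := by
    rintro (i | m | y)
    · exact hncst _ (ta i) (nc i)
    · refine hncst _ (wS m.1) fun c => ?_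
      by_contra hcon
      push Not at hcon
      exact m.2 (wi m.1 c hcon)
    · exact hρ y.1 y.2
  refine hI X (Y776.AxJ.Nj p s) ι (3 * p + s) U hU hc hne (ym τ w) (ym_an ta im wa) h hh hnz ?_
  intro x hx v D hDo hDc h0 hD hv
  have hx0 : x + (0 : ℂ) • v ∈ U := hD 0 h0
  have hconst : ∀ (f : (X → ℂ) → ℂ), AnalyticOnNhd ℂ f U → GD f 1 (x, v) ≠ 0 → ∀ b : ℂ,
      ¬ ∀ t ∈ D, f (x + t • v) = b := by
    intro f hf hf1 b hb
    apply hf1
    have h1 := GD_deriv hf x v 0 hx0
    have h2 : (fun t : ℂ => GD f 0 (x + t • v, v)) =ᶠ[𝓝 0] fun _ => b := by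
      filter_upwards [hDo.mem_nhds h0] with t ht using hb t ht
    have h3 := h1.deriv
    rw [h2.deriv_eq, deriv_const, zero_smul, add_zero] at h3
    exact h3.symm
  have hF : Y776.AxJ.Fmj D (fun i t => τ i (x + t • v)) (fun k t => w k (x + t • v)) :=
    { op := hDo
      conn := hDc
      ne := ⟨0, h0⟩
      ta := fun i t ht => line_an (ta i) x v (hD t ht)
      im := fun i t ht => im i _ (hD t ht)
      nc := by
        intro i c
        by_contra hcon
        push Not at hcon
        exact hconst _ (ta i) (hv (Sum.inl i)) c hcon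
      ji := by
        intro i k hik P hP
        by_contra hP0
        have h1 := hv (Sum.inr (Sum.inr (⟨(i, k), hik⟩, P.support)))
        have h2 := eq_zero_of_minor (M := P.support) (fun a t => gm τ i k a.1 (x + t • v))
          (fun a => line_an (gm_an ta im _ _ _) x v hx0) (ρ ⟨(i, k), hik⟩ P.support) (by
            rw [minor_eq hU (fun a : P.support => gm τ i k a.1) (fun a => gm_an ta im _ _ _)
              (ρ ⟨(i, k), hik⟩ P.support) x v hx]
            exact h1)
          (fun a => P.coeff a.1) (by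
            filter_upwards [hDo.mem_nhds h0] with t ht
            have h3 := hP t ht
            have h4 : (fun m : Fin 2 => Y776.jf (τ (![i, k] m) (x + t • v))) =
                ![Y776.jf (τ i (x + t • v)), Y776.jf (τ k (x + t • v))] := by
              funext m
              fin_cases m <;> rfl
            rw [h4, eval_gm] at h3
            exact (Finset.sum_coe_sort P.support
              (fun m => P.coeff m * gm τ i k m (x + t • v))).trans h3)
        apply hP0
        ext m
        rw [MvPolynomial.coeff_zero]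
        by_cases hm : m ∈ P.support
        · exact congrFun h2 ⟨m, hm⟩
        · exact MvPolynomial.notMem_support_iff.1 hm
      wa := fun k t ht => line_an (wa k) x v (hD t ht)
      wi := by
        intro m b h3
        by_contra hm
        exact hconst _ (wS m) (hv (Sum.inr (Sum.inl ⟨m, hm⟩))) b h3 }
  obtain ⟨e, he, h1⟩ := Y776.AxJ.exists_loc hF hp
  refine ⟨e, he, ?_⟩
  have h2 := h1 0 h0
  have h3 : (fun j (t : ℂ) => ym τ w (e j) (x + t • v)) = fun k =>
      Y776.AxJ.yj (fun i t => τ i (x + t • v)) (fun k t => w k (x + t • v)) (e k) := by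
    funext j t
    rcases e j with ⟨i, m⟩ | k | k <;> rfl
  rw [h3]
  exact h2

end Pool.Agent.N667.AX
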